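import Pool.Agent.CritCyc.Per

/-!
# MP_4023cd_nt: stable primes are those with a closed critical cycle of nonresidues

`f = X ^ 2 + 1` is stable modulo the prime `p` if and only if `p ≡ 3 mod 8`, `p` divides
`f ^ n (0) + 1` for some `n ≥ 2` and `f ^ 2 (0), …, f ^ (n - 1) (0)` are nonresidues modulo `p`:
the orbit of `0` is `0 → 1 →` a cycle of nonresidues containing `2` and `-1`.
-/

open Polynomial Pool.Agent.CritCyc

theorem Pool.Agent.Results.MP_4023cd_nt.CriticalCycle.result :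
    -- (1) stability modulo a prime
    (∀ p : ℕ, p.Prime → ((∀ n, 1 ≤ n → Irreducible (It (ZMod p) 1 n)) ↔
      p % 8 = 3 ∧ ∃ n, 2 ≤ n ∧ (p : ℤ) ∣ orb (1 : ℤ) n + 1 ∧
        ∀ j, 2 ≤ j → j < n → ¬ IsSquare ((orb (1 : ℤ) j : ℤ) : ZMod p))) ∧
    -- (2) the question
    ((∀ p : ℕ, p.Prime → ((∀ n, 1 ≤ n → Irreducible (It (ZMod p) 1 n)) ↔ p = 3)) ↔
      ∀ n p : ℕ, 2 ≤ n → p.Prime → p ≠ 3 → (p : ℤ) ∣ orb (1 : ℤ) n + 1 → p % 8 = 3 →
        ∃ j, 2 ≤ j ∧ j < n ∧ IsSquare ((orb (1 : ℤ) j : ℤ) : ZMod p)) ∧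
    -- (3) the length of the cycle of a stable prime
    (∀ p : ℕ, p.Prime → (∀ n, 1 ≤ n → Irreducible (It (ZMod p) 1 n)) →
      0 < Function.minimalPeriod (fun x : ZMod p => x ^ 2 + 1) 2 ∧
      (p : ℤ) ∣ orb (1 : ℤ) (Function.minimalPeriod (fun x : ZMod p => x ^ 2 + 1) 2 + 1) + 1 ∧
      p ≤ 2 ^ 2 ^ Function.minimalPeriod (fun x : ZMod p => x ^ 2 + 1) 2) ∧
    (∀ N : ℕ, {p : ℕ | p.Prime ∧ (∀ n, 1 ≤ n → Irreducible (It (ZMod p) 1 n)) ∧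
        Function.minimalPeriod (fun x : ZMod p => x ^ 2 + 1) 2 < N}.Finite ∧
      {p : ℕ | p.Prime ∧ (∀ n, 1 ≤ n → Irreducible (It (ZMod p) 1 n)) ∧
        Function.minimalPeriod (fun x : ZMod p => x ^ 2 + 1) 2 < N}.ncard ≤ 2 ^ N) ∧
    (∀ d y : ℝ, 0 < y →
      ({p : ℕ | (p : ℝ) ≤ y ∧ p.Prime ∧ (∀ n, 1 ≤ n → Irreducible (It (ZMod p) 1 n)) ∧
        (Function.minimalPeriod (fun x : ZMod p => x ^ 2 + 1) 2 : ℝ) <
          (1 - d) * Real.logb 2 y}.ncard : ℝ) ≤ 2 * y ^ (1 - d)) ∧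
    -- (4) all finite fields with `3 mod 4` elements, all `X ^ 2 + c`
    (∀ (K : Type) [Field K] [Fintype K], Fintype.card K % 4 = 3 → ∀ c : K,
      ((∀ n, 1 ≤ n → Irreducible (It K c n)) ↔
        ∃ n, 2 ≤ n ∧ orb c n = -c ∧ ∀ j, 2 ≤ j → j ≤ n → ¬ IsSquare (orb c j))) := by
  refine ⟨fun p hp => prime_iff hp, question_iff, fun p hp hs => ?_, ncard_stable_le,
    fun d y hy => ?_, fun K _ _ hq c => field_iff hq c⟩
  · obtain ⟨h1, h2⟩ := stable_period hp hs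
    exact ⟨h1, h2, le_of_dvd (by omega) h2⟩
  · have h2 : (2 : ℝ) ^ ((1 - d) * Real.logb 2 y) = y ^ (1 - d) := by
      rw [mul_comm, Real.rpow_mul (by norm_num), Real.rpow_logb (by norm_num) (by norm_num) hy]
    rw [← h2]
    refine le_trans ?_ (ncard_stable_le_real ((1 - d) * Real.logb 2 y))
    have hfin : {p : ℕ | p.Prime ∧ (∀ n, 1 ≤ n → Irreducible (It (ZMod p) 1 n)) ∧
        (Function.minimalPeriod (fun x : ZMod p => x ^ 2 + 1) 2 : ℝ) <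
          (1 - d) * Real.logb 2 y}.Finite := by
      refine (ncard_stable_le ⌈(1 - d) * Real.logb 2 y⌉₊).1.subset ?_
      rintro p ⟨hp, hs, hL⟩
      exact ⟨hp, hs, Nat.lt_ceil.2 hL⟩
    have hle := Set.ncard_le_ncard (s := {p : ℕ | (p : ℝ) ≤ y ∧ p.Prime ∧
        (∀ n, 1 ≤ n → Irreducible (It (ZMod p) 1 n)) ∧
        (Function.minimalPeriod (fun x : ZMod p => x ^ 2 + 1) 2 : ℝ) <
          (1 - d) * Real.logb 2 y}) (fun p hp => hp.2) hfin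
    exact Nat.cast_le.2 hle
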