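import Pool.Agent.StableX.Count

/-!
# The primes modulo which `X ^ 2 + 1` is stable are sparse

Unconditionally, at most `960 * x / (log x) ^ 2` primes `p ≤ x` are such that `X ^ 2 + 1` is
stable over `ZMod p`, and the sum of the reciprocals of all these primes converges. This comes
from a bound for the number of primes modulo which one given iterate is irreducible, uniform in
the iterate.
-/

namespace Pool.Agent.Results.MP_4023cd_nt.StablePrimesSparse

open Polynomial

/-- The `n`-th compositional iterate of `X ^ 2 + 1` is irreducible modulo `p`. -/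
def IrrMod (n p : ℕ) : Prop :=
  Irreducible ((fun g : Polynomial (ZMod p) => (X ^ 2 + 1 : Polynomial (ZMod p)).comp g)^[n] X)

/-- `X ^ 2 + 1` is stable modulo `p`: all its iterates are irreducible modulo `p`. -/
def StableMod (p : ℕ) : Prop := ∀ n : ℕ, 1 ≤ n → IrrMod n p

lemma ncard_eq (n x : ℕ) :
    {p : ℕ | p.Prime ∧ p ≤ x ∧ IrrMod n p}.ncard = (StableX.S n x).card := by
  rw [← Set.ncard_coe_finset]
  congr 1
  ext p
  simp only [Set.mem_setOf_eq, Finset.mem_coe, StableX.mem_S]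
  constructor
  · rintro ⟨h1, h2, h3⟩; exact ⟨h2, h1, h3⟩
  · rintro ⟨h1, h2, h3⟩; exact ⟨h2, h1, h3⟩

theorem result :
    (∀ n x : ℕ, 1 ≤ n → 2 ^ 2 ^ (n + 1) ≤ x →
      ({p : ℕ | p.Prime ∧ p ≤ x ∧ IrrMod n p}.ncard : ℝ) ≤ 240 * x / (2 ^ n * Real.log x)) ∧
    (∀ x : ℕ, 2 ≤ x →
      ({p : ℕ | p.Prime ∧ p ≤ x ∧ StableMod p}.ncard : ℝ) ≤ 960 * x / (Real.log x) ^ 2) ∧
    Summable (fun p : {p : ℕ // p.Prime ∧ StableMod p} => (1 : ℝ) / (p : ℕ)) := by
  refine ⟨fun n x hn hx => ?_, fun x hx => ?_, StableX.summable_S⟩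
  · rw [ncard_eq]
    exact StableX.card_S_uniform n x hn hx
  · refine le_trans ?_ (StableX.card_S_bound x hx)
    rw [← ncard_eq]
    have hfin : {p : ℕ | p.Prime ∧ p ≤ x ∧ IrrMod (StableX.lev x) p}.Finite :=
      (Set.finite_Iic x).subset fun p hp => hp.2.1
    have hsub : {p : ℕ | p.Prime ∧ p ≤ x ∧ StableMod p} ⊆
        {p : ℕ | p.Prime ∧ p ≤ x ∧ IrrMod (StableX.lev x) p} := by
      rintro p ⟨h1, h2, h3⟩
      exact ⟨h1, h2, StableX.Stable.all h1 h3 _⟩
    exact_mod_cast Set.ncard_le_ncard hsub hfin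

end Pool.Agent.Results.MP_4023cd_nt.StablePrimesSparse
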